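import Mathlib

/-!
# Contraction-critical graphs: definitions and the basic lemma on contractions
-/

namespace Pool.Agent.Lib.MP_e95c01_co

/-- `G` is `k`-connected: it has more than `k` vertices and `G - S` is connected for every set `S`
of fewer than `k` vertices. -/
def KConn {V : Type} (k : ℕ) (G : SimpleGraph V) : Prop :=
  k < Nat.card V ∧ ∀ S : Set V, S.ncard < k → (G.induce Sᶜ).Connected

/-- The contraction `G / xy`: the vertices `x` and `y` are identified (the new vertex is named
`x`, and `y` is removed); loops and parallel edges are dropped. -/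
def contract {V : Type} (G : SimpleGraph V) (x y : V) : SimpleGraph {v : V // v ≠ y} where
  Adj u v := u ≠ v ∧ (G.Adj u v ∨ (u.1 = x ∧ G.Adj y v) ∨ (v.1 = x ∧ G.Adj y u))
  symm := ⟨by
    rintro u v ⟨h, h1 | h1 | h1⟩
    · exact ⟨h.symm, Or.inl h1.symm⟩
    · exact ⟨h.symm, Or.inr (Or.inr h1)⟩
    · exact ⟨h.symm, Or.inr (Or.inl h1)⟩⟩
  loopless := ⟨fun u h => h.1 rfl⟩

/-- `G` is `k`-contraction-critical: `k`-connected, and no edge is `k`-contractible. -/
def Critical {V : Type} (k : ℕ) (G : SimpleGraph V) : Prop :=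
  KConn k G ∧ ∀ x y : V, G.Adj x y → ¬ KConn k (contract G x y)

/-- The number of vertices of degree exactly `k`. -/
noncomputable def numDeg {V : Type} (k : ℕ) (G : SimpleGraph V) : ℕ :=
  {v : V | (G.neighborSet v).ncard = k}.ncard

/-- `c` is admissible for `k`: every finite `k`-contraction-critical graph `G` has at least
`c |V(G)|` vertices of degree `k`. -/
def Admissible (k : ℕ) (c : ℝ) : Prop :=
  ∀ (V : Type) [Finite V] (G : SimpleGraph V), Critical k G →
    c * (Nat.card V : ℝ) ≤ (numDeg k G : ℝ)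

/-- The constant `c_k` of the problem. -/
noncomputable def cc (k : ℕ) : ℝ := sSup {c : ℝ | 0 ≤ c ∧ Admissible k c}

/-- An edge both of whose ends lie in a `k`-vertex cut is not `k`-contractible. -/
theorem not_kconn_contract {V : Type} [Finite V] {k : ℕ} {G : SimpleGraph V} {x y : V}
    (T A : Set V) (hxT : x ∈ T) (hyT : y ∈ T) (hT : T.ncard ≤ k) {a b : V}
    (ha : a ∈ A) (haT : a ∉ T) (hbA : b ∉ A) (hbT : b ∉ T)
    (hcl : ∀ u ∈ A, ∀ v, G.Adj u v → v ∈ A ∨ v ∈ T) :
    ¬ KConn k (contract G x y) := by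
  classical
  rintro ⟨-, h⟩
  have hay : a ≠ y := fun h => haT (h ▸ hyT)
  have hby : b ≠ y := fun h => hbT (h ▸ hyT)
  let S : Set {v : V // v ≠ y} := {v | v.1 ∈ T}
  have hS : S.ncard < k := by
    have h1 : (Subtype.val '' S).ncard = S.ncard :=
      Set.ncard_image_of_injective _ Subtype.val_injective
    have h2 : Subtype.val '' S ⊆ T \ {y} := by
      rintro _ ⟨v, hv, rfl⟩
      exact ⟨hv, by simpa using v.2⟩
    have h3 : (T \ {y}).ncard < T.ncard := Set.ncard_sdiff_singleton_lt_of_mem hyT (Set.toFinite _)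
    have h4 := Set.ncard_le_ncard h2 (Set.toFinite _)
    omega
  have hc := (h S hS).preconnected
  have haS : (⟨a, hay⟩ : {v : V // v ≠ y}) ∈ Sᶜ := haT
  have hbS : (⟨b, hby⟩ : {v : V // v ≠ y}) ∈ Sᶜ := hbT
  obtain ⟨p⟩ := hc ⟨_, haS⟩ ⟨_, hbS⟩
  have key : ∀ (u v : ↥(Sᶜ)) (_ : ((contract G x y).induce Sᶜ).Walk u v),
      u.1.1 ∈ A → v.1.1 ∈ A := by
    intro u v q
    induction q with
    | nil => exact id
    | @cons u w v hadj q ih =>
      intro hu
      apply ih
      have hadj' : (contract G x y).Adj u.1 w.1 := hadj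
      have huT : u.1.1 ∉ T := u.2
      have hwT : w.1.1 ∉ T := w.2
      rcases hadj'.2 with h1 | h1 | h1
      · rcases hcl _ hu _ h1 with h2 | h2
        · exact h2
        · exact absurd h2 hwT
      · exact absurd (h1.1 ▸ hxT) huT
      · exact absurd (h1.1 ▸ hxT) hwT
  exact hbA (key _ _ p ha)

/-- One critical graph bounds `c_k` from above. -/
theorem cc_le {V : Type} [Finite V] {k : ℕ} {G : SimpleGraph V} (hG : Critical k G) {r : ℝ}
    (hr : (numDeg k G : ℝ) = r * (Nat.card V : ℝ)) : cc k ≤ r := by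
  have hpos : (0 : ℝ) < (Nat.card V : ℝ) := by
    have := hG.1.1
    exact_mod_cast (by omega : 0 < Nat.card V)
  apply csSup_le
  · refine ⟨0, le_refl _, ?_⟩
    intro W _ H _
    simp
  · rintro c ⟨-, hc⟩
    have := hc V G hG
    rw [hr] at this
    exact le_of_mul_le_mul_right this hpos

end Pool.Agent.Lib.MP_e95c01_co
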