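import Pool.Agent.Lib.MP_e95c01_co.Basic

/-!
# A checker for `k`-connectedness of small graphs given by neighbourhood masks
-/

namespace Pool.Agent.Lib.MP_e95c01_co

/-- Number of ones among the bits `0, ..., i-1` of `x`. -/
def pc : ℕ → ℕ → ℕ
  | 0, _ => 0
  | i + 1, x => (if x.testBit i then 1 else 0) + pc i x

/-- Depth first search over all vertex sets: `S` is the set chosen so far, `N` its closed
neighbourhood, bits `i-1, ..., 0` are still free. -/
def chk (a : ℕ → ℕ) (n k full : ℕ) : ℕ → ℕ → ℕ → Bool
  | 0, S, N => (N == full) || ((S == 0) || Nat.ble k (pc n (N ^^^ S)))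
  | i + 1, S, N => (N == full) ||
      (chk a n k full i S N && chk a n k full i (S ||| 2 ^ i) (N ||| (a i ||| 2 ^ i)))

theorem pc_eq (x : ℕ) : ∀ n : ℕ, pc n x =
    (Finset.univ.filter (fun v : Fin n => x.testBit v = true)).card := by
  intro n
  induction n with
  | zero => simp [pc]
  | succ n ih =>
    rw [pc, ih, Finset.card_filter, Finset.card_filter, Fin.sum_univ_castSucc, add_comm]
    simp

theorem chk_sound {n k : ℕ} (a : ℕ → ℕ) (G : SimpleGraph (Fin n))
    (hG : ∀ u v : Fin n, G.Adj u v ↔ (a u).testBit v = true) (A : Finset (Fin n)) :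
    ∀ i : ℕ, i ≤ n → ∀ S N : ℕ, chk a n k (2 ^ n - 1) i S N = true →
    (∀ v : Fin n, S.testBit v = true ↔ v ∈ A ∧ i ≤ v) →
    (∀ v : Fin n, N.testBit v = true ↔ ∃ u ∈ A, i ≤ (u : ℕ) ∧ (u = v ∨ G.Adj u v)) →
    A = ∅ ∨ (∀ v, ∃ u ∈ A, u = v ∨ G.Adj u v) ∨
      ∃ B : Finset (Fin n), k ≤ B.card ∧ ∀ v ∈ B, v ∉ A ∧ ∃ u ∈ A, G.Adj u v := by
  have hfull : ∀ (i : ℕ) (N : ℕ), N = 2 ^ n - 1 →
      (∀ v : Fin n, N.testBit v = true ↔ ∃ u ∈ A, i ≤ (u : ℕ) ∧ (u = v ∨ G.Adj u v)) →
      (∀ v, ∃ u ∈ A, u = v ∨ G.Adj u v) := by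
    intro i N hN h v
    obtain ⟨u, hu, -, h2⟩ := (h v).mp (by
      rw [hN, Nat.testBit_two_pow_sub_one]
      simp)
    exact ⟨u, hu, h2⟩
  intro i
  induction i with
  | zero =>
    intro _ S N h hS hN
    rw [chk, Bool.or_eq_true, Bool.or_eq_true, beq_iff_eq, beq_iff_eq] at h
    rcases h with h | h | h
    · exact Or.inr (Or.inl (hfull 0 N h hN))
    · left
      rw [Finset.eq_empty_iff_forall_notMem]
      intro v hv
      have := (hS v).mpr ⟨hv, Nat.zero_le _⟩
      rw [h] at this
      simp at this
    · refine Or.inr (Or.inr ⟨Finset.univ.filter (fun v : Fin n => (N ^^^ S).testBit v = true),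
        ?_, ?_⟩)
      · rw [← pc_eq]
        exact Nat.le_of_ble_eq_true h
      · intro v hv
        rw [Finset.mem_filter, Nat.testBit_xor] at hv
        have h1 := hv.2
        have hSN : S.testBit v = true → N.testBit v = true := by
          intro h2
          exact (hN v).mpr ⟨v, ((hS v).mp h2).1, Nat.zero_le _, Or.inl rfl⟩
        have hSf : S.testBit v = false := by
          by_contra h2
          rw [Bool.not_eq_false] at h2
          rw [hSN h2, h2] at h1
          simp at h1
        rw [hSf, Bool.xor_false] at h1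
        have hvA : v ∉ A := by
          intro h2
          have := (hS v).mpr ⟨h2, Nat.zero_le _⟩
          rw [hSf] at this
          exact absurd this (by decide)
        obtain ⟨u, hu, -, h3⟩ := (hN v).mp h1
        refine ⟨hvA, u, hu, ?_⟩
        rcases h3 with rfl | h3
        · exact absurd hu hvA
        · exact h3
  | succ i ih =>
    intro hi S N h hS hN
    rw [chk, Bool.or_eq_true, beq_iff_eq, Bool.and_eq_true] at h
    rcases h with h | ⟨h1, h2⟩
    · exact Or.inr (Or.inl (hfull _ N h hN))
    · by_cases hw : (⟨i, hi⟩ : Fin n) ∈ A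
      · refine ih (by omega) _ _ h2 ?_ ?_
        · intro v
          rw [Nat.testBit_or, Nat.testBit_two_pow, Bool.or_eq_true, hS v, decide_eq_true_iff]
          constructor
          · rintro (⟨h3, h4⟩ | h3)
            · exact ⟨h3, by omega⟩
            · have : v = ⟨i, hi⟩ := Fin.ext h3.symm
              exact ⟨this ▸ hw, by omega⟩
          · rintro ⟨h3, h4⟩
            by_cases h5 : i = (v : ℕ)
            · exact Or.inr h5
            · exact Or.inl ⟨h3, by omega⟩
        · intro v
          rw [Nat.testBit_or, Nat.testBit_or, Nat.testBit_two_pow, Bool.or_eq_true,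
            Bool.or_eq_true, hN v, decide_eq_true_iff]
          have hGi : (a i).testBit v = true ↔ G.Adj ⟨i, hi⟩ v := (hG ⟨i, hi⟩ v).symm
          rw [hGi]
          constructor
          · rintro (⟨u, hu, h3, h4⟩ | h3 | h3)
            · exact ⟨u, hu, by omega, h4⟩
            · exact ⟨⟨i, hi⟩, hw, le_refl _, Or.inr h3⟩
            · exact ⟨⟨i, hi⟩, hw, le_refl _, Or.inl (Fin.ext h3)⟩
          · rintro ⟨u, hu, h3, h4⟩
            by_cases h5 : i = (u : ℕ)
            · have h6 : u = ⟨i, hi⟩ := Fin.ext h5.symm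
              subst h6
              rcases h4 with h4 | h4
              · exact Or.inr (Or.inr (congrArg Fin.val h4))
              · exact Or.inr (Or.inl h4)
            · exact Or.inl ⟨u, hu, by omega, h4⟩
      · refine ih (by omega) _ _ h1 ?_ ?_
        · intro v
          rw [hS v]
          constructor
          · rintro ⟨h3, h4⟩
            exact ⟨h3, by omega⟩
          · rintro ⟨h3, h4⟩
            refine ⟨h3, ?_⟩
            by_contra h5
            have : v = ⟨i, hi⟩ := Fin.ext (by show (v : ℕ) = i; omega)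
            exact hw (this ▸ h3)
        · intro v
          rw [hN v]
          constructor
          · rintro ⟨u, hu, h3, h4⟩
            exact ⟨u, hu, by omega, h4⟩
          · rintro ⟨u, hu, h3, h4⟩
            refine ⟨u, hu, ?_, h4⟩
            by_contra h5
            have : u = ⟨i, hi⟩ := Fin.ext (by show (u : ℕ) = i; omega)
            exact hw (this ▸ hu)

/-- The checker proves `k`-connectedness. -/
theorem kconn_of_chk {n k : ℕ} (hk : k < n) (a : ℕ → ℕ) (G : SimpleGraph (Fin n))
    (hG : ∀ u v : Fin n, G.Adj u v ↔ (a u).testBit v = true)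
    (h : chk a n k (2 ^ n - 1) n 0 0 = true) : KConn k G := by
  classical
  refine ⟨by rw [Nat.card_fin]; exact hk, ?_⟩
  intro S hS
  rw [SimpleGraph.connected_iff]
  constructor
  · rintro ⟨u, hu⟩ ⟨v, hv⟩
    let A : Finset (Fin n) := Finset.univ.filter
      (fun w => ∃ hw : w ∈ Sᶜ, (G.induce Sᶜ).Reachable ⟨u, hu⟩ ⟨w, hw⟩)
    have hA : ∀ w, w ∈ A ↔ ∃ hw : w ∈ Sᶜ, (G.induce Sᶜ).Reachable ⟨u, hu⟩ ⟨w, hw⟩ := by
      intro w; simp [A]
    have hcl : ∀ w ∈ A, ∀ z, G.Adj w z → z ∈ Sᶜ → z ∈ A := by
      intro w hw z hwz hz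
      obtain ⟨hw1, hw2⟩ := (hA w).mp hw
      rw [hA]
      refine ⟨hz, hw2.trans (SimpleGraph.Adj.reachable ?_)⟩
      exact hwz
    have huA : u ∈ A := (hA u).mpr ⟨hu, SimpleGraph.Reachable.refl _⟩
    have hvA : v ∈ A := by
      rcases chk_sound a G hG A n (le_refl n) 0 0 h
        (by intro v; simp only [Nat.zero_testBit]; constructor
            · intro h; exact absurd h (by decide)
            · rintro ⟨-, h⟩; exact absurd v.2 (by omega))
        (by intro v; simp only [Nat.zero_testBit]; constructor
            · intro h; exact absurd h (by decide)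
            · rintro ⟨u, -, h, -⟩; exact absurd u.2 (by omega)) with h1 | h1 | h1
      · rw [h1] at huA
        simp at huA
      · obtain ⟨w, hw, h2⟩ := h1 v
        rcases h2 with rfl | h2
        · exact hw
        · exact hcl w hw v h2 hv
      · exfalso
        obtain ⟨B, hB1, hB2⟩ := h1
        have h2 : (B : Set (Fin n)) ⊆ S := by
          intro z hz
          by_contra h3
          obtain ⟨h4, w, hw, h5⟩ := hB2 z hz
          exact h4 (hcl w hw z h5 h3)
        have h3 := Set.ncard_le_ncard h2 (Set.toFinite _)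
        rw [Set.ncard_coe_finset] at h3
        omega
    exact ((hA v).mp hvA).2
  · have : (Sᶜ).Nonempty := by
      rw [Set.nonempty_compl]
      rintro rfl
      rw [Set.ncard_univ, Nat.card_fin] at hS
      omega
    exact this.to_subtype

end Pool.Agent.Lib.MP_e95c01_co
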