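import Pool.Agent.Lib.MP_e95c01_co.Fan
import Pool.Agent.Lib.MP_e95c01_co.Check

/-!
# A checker for contraction-critical graphs given by neighbourhood masks
-/

namespace Pool.Agent.Lib.MP_e95c01_co

/-- The graph with the vertices `0, ..., n-1` and the neighbourhood masks `a`. -/
def maskGraph (n : ℕ) (a : ℕ → ℕ) (h : (∀ u < n, ∀ v < n, ((a u).testBit v = (a v).testBit u)) ∧
    ∀ u < n, (a u).testBit u = false) : SimpleGraph (Fin n) where
  Adj u v := (a u).testBit v = true
  symm := ⟨fun u v huv => by rw [← h.1 u u.2 v v.2]; exact huv⟩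
  loopless := ⟨fun u hu => by rw [h.2 u u.2] at hu; exact absurd hu (by decide)⟩

/-- Check of one fragment: mask `A` of the fragment, mask `T` of its neighbours, a vertex `x` of
the fragment, a vertex `y` outside both. -/
def fragOK (a : ℕ → ℕ) (n k : ℕ) (p : ℕ × ℕ × ℕ × ℕ) : Bool :=
  Nat.ble (pc n p.2.1) k &&
    ((Nat.blt p.2.2.1 n && (p.1.testBit p.2.2.1 && !(p.2.1.testBit p.2.2.1))) &&
      ((Nat.blt p.2.2.2 n && (!(p.1.testBit p.2.2.2) && !(p.2.1.testBit p.2.2.2))) &&
        (List.range n).all fun u => !(p.1.testBit u) || ((a u ||| (p.1 ||| p.2.1)) == (p.1 ||| p.2.1))))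

/-- The union of the masks `T` of the fragments with `u ∈ T`. -/
def coverMask (fr : List (ℕ × ℕ × ℕ × ℕ)) (u : ℕ) : ℕ :=
  fr.foldr (fun p m => if p.2.1.testBit u then p.2.1 ||| m else m) 0

theorem testBit_coverMask (fr : List (ℕ × ℕ × ℕ × ℕ)) (u v : ℕ) :
    (coverMask fr u).testBit v = true ↔ ∃ p ∈ fr, p.2.1.testBit u = true ∧
      p.2.1.testBit v = true := by
  induction fr with
  | nil => simp [coverMask]
  | cons q fr ih =>
    have e : coverMask (q :: fr) u =
      if q.2.1.testBit u then q.2.1 ||| coverMask fr u else coverMask fr u := rfl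
    rw [e]
    split_ifs with h
    · rw [Nat.testBit_or, Bool.or_eq_true, ih]
      constructor
      · rintro (h1 | ⟨p, hp, h1⟩)
        · exact ⟨q, List.mem_cons_self, h, h1⟩
        · exact ⟨p, List.mem_cons_of_mem _ hp, h1⟩
      · rintro ⟨p, hp, h1⟩
        rw [List.mem_cons] at hp
        rcases hp with rfl | hp
        · exact Or.inl h1.2
        · exact Or.inr ⟨p, hp, h1⟩
    · rw [ih]
      constructor
      · rintro ⟨p, hp, h1⟩
        exact ⟨p, List.mem_cons_of_mem _ hp, h1⟩
      · rintro ⟨p, hp, h1⟩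
        rw [List.mem_cons] at hp
        rcases hp with rfl | hp
        · exact absurd h1.1 h
        · exact ⟨p, hp, h1⟩

theorem critical_of_check {n k : ℕ} {a : ℕ → ℕ} {G : SimpleGraph (Fin n)}
    (hG : ∀ u v : Fin n, G.Adj u v ↔ (a u).testBit v = true)
    (fr : List (ℕ × ℕ × ℕ × ℕ)) (h1 : fr.all (fragOK a n k) = true)
    (h2 : (List.range n).all (fun u => (a u ||| coverMask fr u) == coverMask fr u) = true)
    (hk : KConn k G) : Critical k G := by
  classical
  refine ⟨hk, ?_⟩
  intro x y hxy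
  rw [List.all_eq_true] at h1 h2
  have h3 : (coverMask fr x).testBit y = true := by
    have h4 := h2 x (List.mem_range.mpr x.2)
    rw [beq_iff_eq] at h4
    rw [← h4, Nat.testBit_or, (hG x y).mp hxy, Bool.true_or]
  obtain ⟨p, hp, hx, hy⟩ := (testBit_coverMask fr x y).mp h3
  have h4 := h1 p hp
  rw [fragOK, Bool.and_eq_true, Bool.and_eq_true, Bool.and_eq_true, Bool.and_eq_true,
    Bool.and_eq_true, Bool.and_eq_true, Bool.and_eq_true, List.all_eq_true] at h4
  obtain ⟨hc, ⟨ha, haA, haT⟩, ⟨hb, hbA, hbT⟩, hcl⟩ := h4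
  have ha' : p.2.2.1 < n := by simpa [Nat.blt_eq] using ha
  have hb' : p.2.2.2 < n := by simpa [Nat.blt_eq] using hb
  rw [Bool.not_eq_true'] at haT hbA hbT
  refine not_kconn_contract (T := {v : Fin n | p.2.1.testBit v = true})
    (A := {v : Fin n | p.1.testBit v = true}) hx hy ?_ (a := ⟨p.2.2.1, ha'⟩) (b := ⟨p.2.2.2, hb'⟩)
    haA (by simp [haT]) (by simp [hbA]) (by simp [hbT]) ?_
  · have : {v : Fin n | p.2.1.testBit v = true} =
        ↑(Finset.univ.filter (fun v : Fin n => p.2.1.testBit v = true)) := by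
      ext v; simp
    rw [this, Set.ncard_coe_finset, ← pc_eq]
    exact Nat.le_of_ble_eq_true hc
  · intro u hu v huv
    have h5 := hcl u (List.mem_range.mpr u.2)
    have hu' : p.1.testBit (u : ℕ) = true := hu
    rw [hu', Bool.not_true, Bool.false_or, beq_iff_eq] at h5
    have h6 : (p.1 ||| p.2.1).testBit v = true := by
      rw [← h5, Nat.testBit_or, (hG u v).mp huv, Bool.true_or]
    rw [Nat.testBit_or, Bool.or_eq_true] at h6
    exact h6

theorem numDeg_of_check {n k m : ℕ} {a : ℕ → ℕ} {G : SimpleGraph (Fin n)}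
    (hG : ∀ u v : Fin n, G.Adj u v ↔ (a u).testBit v = true)
    (h : ((List.range n).filter (fun u => pc n (a u) == k)).length = m) :
    numDeg k G = m := by
  classical
  unfold numDeg
  have h1 : ∀ v : Fin n, (G.neighborSet v).ncard = pc n (a v) := by
    intro v
    rw [pc_eq, ← Set.ncard_coe_finset]
    congr 1
    ext w
    simp [SimpleGraph.mem_neighborSet, hG v w]
  have h2 : {v : Fin n | (G.neighborSet v).ncard = k} =
      ↑(Finset.univ.filter (fun v : Fin n => pc n (a v) = k)) := by
    ext v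
    simp [h1 v]
  rw [h2, Set.ncard_coe_finset, ← h]
  rw [← Finset.card_map Fin.valEmbedding]
  have h3 : ((Finset.univ.filter (fun v : Fin n => pc n (a v) = k)).map Fin.valEmbedding) =
      ((List.range n).filter (fun u => pc n (a u) == k)).toFinset := by
    ext w
    simp only [Finset.mem_map, Finset.mem_filter, Finset.mem_univ, true_and, Fin.valEmbedding_apply,
      List.mem_toFinset, List.mem_filter, List.mem_range, beq_iff_eq]
    constructor
    · rintro ⟨v, hv, rfl⟩
      exact ⟨v.2, hv⟩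
    · rintro ⟨hw, h4⟩
      exact ⟨⟨w, hw⟩, h4, rfl⟩
  rw [h3, List.toFinset_card_of_nodup]
  exact (List.nodup_range).filter _

end Pool.Agent.Lib.MP_e95c01_co
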