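import Pool.Agent.Lib.MP_e95c01_co.Basic

/-!
# A checker for `k`-connectedness of graphs given by neighbourhood masks: fans of disjoint paths

The vertices are `0, ..., n-1`. For every vertex `v ≥ k` the certificate contains `k` pairwise
disjoint paths which start at a neighbour of `v` and end in a vertex smaller than `v`; for all
vertices `i < j < k` which are not adjacent it contains `k` pairwise disjoint paths from a
neighbour of `i` to a neighbour of `j`.
-/

namespace Pool.Agent.Lib.MP_e95c01_co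

/-- `walkOK a n t u l`: the list `l` is a walk from a neighbour of `u` to a vertex in the set with
mask `t`. -/
def walkOK (a : ℕ → ℕ) (n t : ℕ) : ℕ → List ℕ → Bool
  | _, [] => false
  | u, [w] => Nat.blt w n && ((a u).testBit w && t.testBit w)
  | u, w :: w' :: l => (Nat.blt w n && (a u).testBit w) && walkOK a n t w (w' :: l)

/-- The mask of a list. -/
def lmask : List ℕ → ℕ
  | [] => 0
  | w :: l => 2 ^ w ||| lmask l

/-- The lists are pairwise disjoint and disjoint from the set with mask `m`. -/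
def disjOK : ℕ → List (List ℕ) → Bool
  | _, [] => true
  | m, l :: ls => ((m &&& lmask l) == 0) && disjOK (m ||| lmask l) ls

/-- `k` pairwise disjoint walks from neighbours of `v` to the set with mask `t`. -/
def fanOK (a : ℕ → ℕ) (n k t v : ℕ) (ps : List (List ℕ)) : Bool :=
  (ps.length == k) && (ps.all (walkOK a n t v) && disjOK 0 ps)

theorem testBit_lmask (l : List ℕ) (w : ℕ) : (lmask l).testBit w = true ↔ w ∈ l := by
  induction l with
  | nil => simp [lmask]
  | cons x l ih =>
    rw [lmask, Nat.testBit_or, Bool.or_eq_true, ih, Nat.testBit_two_pow, decide_eq_true_iff,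
      List.mem_cons]
    constructor
    · rintro (h | h)
      · exact Or.inl h.symm
      · exact Or.inr h
    · rintro (h | h)
      · exact Or.inl h.symm
      · exact Or.inr h

theorem disjOK_spec : ∀ (ls : List (List ℕ)) (m : ℕ), disjOK m ls = true →
    (∀ l ∈ ls, ∀ w ∈ l, m.testBit w = false) ∧
      ls.Pairwise (fun l l' => ∀ w ∈ l, w ∉ l') := by
  intro ls
  induction ls with
  | nil => intro m _; simp
  | cons l ls ih =>
    intro m h
    rw [disjOK, Bool.and_eq_true, beq_iff_eq] at h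
    obtain ⟨h1, h2⟩ := h
    obtain ⟨h3, h4⟩ := ih _ h2
    have hl : ∀ w ∈ l, m.testBit w = false := by
      intro w hw
      have h5 : (m &&& lmask l).testBit w = false := by rw [h1, Nat.zero_testBit]
      rw [Nat.testBit_and, (testBit_lmask l w).mpr hw, Bool.and_true] at h5
      exact h5
    refine ⟨?_, ?_⟩
    · intro l' hl' w hw
      rw [List.mem_cons] at hl'
      rcases hl' with rfl | hl'
      · exact hl w hw
      · have h5 := h3 l' hl' w hw
        rw [Nat.testBit_or, Bool.or_eq_false_iff] at h5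
        exact h5.1
    · rw [List.pairwise_cons]
      refine ⟨?_, h4⟩
      intro l' hl' w hw hw'
      have h5 := h3 l' hl' w hw'
      rw [Nat.testBit_or, Bool.or_eq_false_iff] at h5
      have h6 := (testBit_lmask l w).mpr hw
      rw [h5.2] at h6
      exact absurd h6 (by decide)

/-- Among `k` pairwise disjoint lists one avoids a given set of fewer than `k` elements. -/
theorem exists_avoid : ∀ (ls : List (List ℕ)) (S : Finset ℕ),
    ls.Pairwise (fun l l' => ∀ w ∈ l, w ∉ l') → S.card < ls.length →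
    ∃ l ∈ ls, ∀ w ∈ l, w ∉ S := by
  intro ls
  induction ls with
  | nil => intro S _ h; simp at h
  | cons l ls ih =>
    intro S hp hS
    rw [List.pairwise_cons] at hp
    by_cases h : ∀ w ∈ l, w ∉ S
    · exact ⟨l, List.mem_cons_self, h⟩
    · push Not at h
      obtain ⟨w, hw, hwS⟩ := h
      obtain ⟨l', hl', h'⟩ := ih (S.erase w) hp.2 (by
        rw [Finset.card_erase_of_mem hwS]
        rw [List.length_cons] at hS
        have := Finset.card_pos.mpr ⟨w, hwS⟩
        omega)
      refine ⟨l', List.mem_cons_of_mem _ hl', ?_⟩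
      intro z hz hzS
      by_cases hzw : z = w
      · subst hzw
        exact hp.1 l' hl' z hw hz
      · exact h' z hz (Finset.mem_erase.mpr ⟨hzw, hzS⟩)

/-- `u` and `v` are outside `S` and connected in `G - S`. -/
def ConnOut {n : ℕ} (G : SimpleGraph (Fin n)) (S : Set (Fin n)) (u v : Fin n) : Prop :=
  ∃ (hu : u ∈ Sᶜ) (hv : v ∈ Sᶜ), (G.induce Sᶜ).Reachable ⟨u, hu⟩ ⟨v, hv⟩

section

variable {n : ℕ} {G : SimpleGraph (Fin n)} {S : Set (Fin n)}

theorem ConnOut.trans {u v w : Fin n} (h : ConnOut G S u v) (h' : ConnOut G S v w) :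
    ConnOut G S u w := by
  obtain ⟨hu, hv, h1⟩ := h
  obtain ⟨_, hw, h2⟩ := h'
  exact ⟨hu, hw, h1.trans h2⟩

theorem ConnOut.symm {u v : Fin n} (h : ConnOut G S u v) : ConnOut G S v u := by
  obtain ⟨hu, hv, h1⟩ := h
  exact ⟨hv, hu, h1.symm⟩

theorem connOut_refl {u : Fin n} (hu : u ∉ S) : ConnOut G S u u :=
  ⟨hu, hu, SimpleGraph.Reachable.refl _⟩

theorem connOut_adj {u v : Fin n} (hu : u ∉ S) (hv : v ∉ S) (h : G.Adj u v) : ConnOut G S u v :=
  ⟨hu, hv, SimpleGraph.Adj.reachable (G := G.induce Sᶜ) (u := ⟨u, hu⟩) (v := ⟨v, hv⟩) h⟩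

variable {a : ℕ → ℕ}

theorem walkOK_spec (hG : ∀ u v : Fin n, (a u).testBit v = true → G.Adj u v) {t : ℕ} :
    ∀ (l : List ℕ) (u : ℕ) (hu : u < n), walkOK a n t u l = true → (⟨u, hu⟩ : Fin n) ∉ S →
      (∀ z : Fin n, (z : ℕ) ∈ l → z ∉ S) →
      ∃ z : Fin n, t.testBit z = true ∧ z ∉ S ∧ ConnOut G S ⟨u, hu⟩ z := by
  intro l
  induction l with
  | nil => intro u _ h; simp [walkOK] at h
  | cons w l ih =>
    intro u hu h huS hS
    cases l with
    | nil =>
      rw [walkOK, Bool.and_eq_true, Bool.and_eq_true] at h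
      obtain ⟨h1, h2, h3⟩ := h
      have hw : w < n := by simpa [Nat.blt_eq] using h1
      have hwS : (⟨w, hw⟩ : Fin n) ∉ S := hS ⟨w, hw⟩ List.mem_cons_self
      exact ⟨⟨w, hw⟩, h3, hwS, connOut_adj huS hwS (hG ⟨u, hu⟩ ⟨w, hw⟩ h2)⟩
    | cons w' l =>
      rw [walkOK, Bool.and_eq_true, Bool.and_eq_true] at h
      obtain ⟨⟨h1, h2⟩, h3⟩ := h
      have hw : w < n := by simpa [Nat.blt_eq] using h1
      have hwS : (⟨w, hw⟩ : Fin n) ∉ S := hS ⟨w, hw⟩ List.mem_cons_self
      obtain ⟨z, hz1, hz2, hz3⟩ := ih w hw h3 hwS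
        (fun z hz => hS z (List.mem_cons_of_mem _ hz))
      exact ⟨z, hz1, hz2, (connOut_adj huS hwS (hG ⟨u, hu⟩ ⟨w, hw⟩ h2)).trans hz3⟩

theorem fanOK_spec (hG : ∀ u v : Fin n, (a u).testBit v = true → G.Adj u v) {k t v : ℕ}
    {ps : List (List ℕ)} (h : fanOK a n k t v ps = true) (hS : S.ncard < k) (hv : v < n)
    (hvS : (⟨v, hv⟩ : Fin n) ∉ S) :
    ∃ z : Fin n, t.testBit z = true ∧ z ∉ S ∧ ConnOut G S ⟨v, hv⟩ z := by
  classical
  rw [fanOK, Bool.and_eq_true, Bool.and_eq_true, beq_iff_eq, List.all_eq_true] at h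
  obtain ⟨h1, h2, h3⟩ := h
  let T : Finset ℕ := (S.toFinite.toFinset).image (fun z : Fin n => (z : ℕ))
  have hT : T.card < ps.length := by
    rw [h1]
    refine lt_of_le_of_lt Finset.card_image_le ?_
    rw [← Set.ncard_eq_toFinset_card]
    exact hS
  obtain ⟨l, hl, hl'⟩ := exists_avoid ps T (disjOK_spec ps 0 h3).2 hT
  refine walkOK_spec hG l v hv (h2 l hl) hvS ?_
  intro z hz hzS
  apply hl' z hz
  rw [Finset.mem_image]
  exact ⟨z, S.toFinite.mem_toFinset.mpr hzS, rfl⟩

/-- The checker proves `k`-connectedness. `bp i j` are the paths for `i < j < k`, `ps v` the paths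
for `v ≥ k`. -/
theorem kconn_of_fans {k : ℕ} (hk : k < n)
    (hG : ∀ u v : Fin n, G.Adj u v ↔ (a u).testBit v = true)
    (bp : ℕ → ℕ → List (List ℕ)) (ps : ℕ → List (List ℕ))
    (hb : ∀ j < k, ∀ i < j, ((a i).testBit j || fanOK a n k (a j) i (bp i j)) = true)
    (hs : ∀ v < n, k ≤ v → fanOK a n k (2 ^ v - 1) v (ps v) = true) :
    KConn k G := by
  classical
  refine ⟨by rw [Nat.card_fin]; exact hk, ?_⟩
  intro S hS
  have hG' : ∀ u v : Fin n, (a u).testBit v = true → G.Adj u v := fun u v h => (hG u v).mpr h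
  -- any two base vertices
  have base1 : ∀ i j : Fin n, (i : ℕ) < j → (j : ℕ) < k → i ∉ S → j ∉ S → ConnOut G S i j := by
    intro i j hij hj hi' hj'
    have h := hb j hj i hij
    rw [Bool.or_eq_true] at h
    rcases h with h | h
    · exact connOut_adj hi' hj' (hG' _ _ h)
    · obtain ⟨z, hz1, hz2, hz3⟩ := fanOK_spec hG' h hS i.2 hi'
      exact hz3.trans (connOut_adj hz2 hj' (hG' j z hz1).symm)
  have base : ∀ i j : Fin n, (i : ℕ) < k → (j : ℕ) < k → i ∉ S → j ∉ S → ConnOut G S i j := by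
    intro i j hi hj hi' hj'
    rcases lt_trichotomy (i : ℕ) j with h | h | h
    · exact base1 i j h hj hi' hj'
    · have : i = j := Fin.ext h
      subst this
      exact connOut_refl hi'
    · exact (base1 j i h hi hj' hi').symm
  -- every vertex is connected to a base vertex
  have step : ∀ m : ℕ, ∀ v : Fin n, (v : ℕ) = m → v ∉ S →
      ∃ i : Fin n, (i : ℕ) < k ∧ i ∉ S ∧ ConnOut G S v i := by
    intro m
    induction m using Nat.strong_induction_on with
    | _ m ih =>
      intro v hv hvS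
      by_cases hvk : (v : ℕ) < k
      · exact ⟨v, hvk, hvS, connOut_refl hvS⟩
      · obtain ⟨z, hz1, hz2, hz3⟩ := fanOK_spec hG' (hs v v.2 (by omega)) hS v.2 hvS
        have hzv : (z : ℕ) < v := by
          rw [Nat.testBit_two_pow_sub_one] at hz1
          simpa using hz1
        obtain ⟨i, hi1, hi2, hi3⟩ := ih z (by omega) z rfl hz2
        exact ⟨i, hi1, hi2, hz3.trans hi3⟩
  rw [SimpleGraph.connected_iff]
  constructor
  · rintro ⟨u, hu⟩ ⟨v, hv⟩
    obtain ⟨i, hi1, hi2, hi3⟩ := step _ u rfl hu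
    obtain ⟨j, hj1, hj2, hj3⟩ := step _ v rfl hv
    obtain ⟨_, _, h⟩ := (hi3.trans (base i j hi1 hj1 hi2 hj2)).trans hj3.symm
    exact h
  · have : (Sᶜ).Nonempty := by
      rw [Set.nonempty_compl]
      rintro rfl
      rw [Set.ncard_univ, Nat.card_fin] at hS
      omega
    exact this.to_subtype

end

end Pool.Agent.Lib.MP_e95c01_co
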