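import Pool.Agent.Lib.MP_e95c01_co.Check

/-!
# A 7-contraction-critical graph on 15 vertices with 3 vertices of degree 7
-/

namespace Pool.Agent.Lib.MP_e95c01_co

/-- The neighbourhood masks of the 15 vertices. -/
def G7mask (i : ℕ) : ℕ :=
  [16134, 23749, 23747, 10224, 10216, 15128, 25758, 25694, 7737, 7481, 991, 21287, 19239, 16633, 14534].getD i 0

/-- The graph: `u` and `v` are adjacent if bit `v` of the mask of `u` is set. -/
def G7 : SimpleGraph (Fin 15) where
  Adj u v := (G7mask u).testBit v = true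
  symm := ⟨by
    have h : ∀ u v : Fin 15, (G7mask u).testBit v = true → (G7mask v).testBit u = true := by
      decide +kernel
    exact h⟩
  loopless := ⟨by
    have h : ∀ u : Fin 15, ¬ (G7mask u).testBit u = true := by decide +kernel
    exact h⟩

instance : DecidableRel G7.Adj := fun u v =>
  inferInstanceAs (Decidable ((G7mask u).testBit v = true))

/-- Fragments: mask of the fragment, mask of its 7 neighbours, a vertex of the fragment, a vertex
outside both. -/
def G7frag : List (ℕ × ℕ × Fin 15 × Fin 15) :=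
  [(32, 15128, 5, 0), (16384, 14534, 14, 0), (6, 23745, 1, 3), (6144, 17191, 11, 3), (8192, 16633, 13, 1), (192, 25630, 6, 0), (24, 10208, 3, 0), (768, 7225, 8, 1), (800, 15385, 5, 1)]

theorem G7_chk : chk G7mask 15 7 (2 ^ 15 - 1) 15 0 0 = true := by
  decide +kernel

theorem G7_kconn : KConn 7 G7 :=
  kconn_of_chk (by norm_num) G7mask G7 (fun _ _ => Iff.rfl) G7_chk

theorem G7_frag : ∀ p ∈ G7frag, p.1.testBit p.2.2.1 = true ∧
    ¬ p.2.1.testBit p.2.2.1 = true ∧ ¬ p.1.testBit p.2.2.2 = true ∧
    ¬ p.2.1.testBit p.2.2.2 = true ∧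
    (Finset.univ.filter (fun v : Fin 15 => p.2.1.testBit v = true)).card ≤ 7 ∧
    ∀ u v : Fin 15, p.1.testBit u = true → G7.Adj u v →
      (p.1.testBit v = true ∨ p.2.1.testBit v = true) := by
  decide +kernel

theorem G7_cover : ∀ u v : Fin 15, G7.Adj u v → ∃ p ∈ G7frag,
    p.2.1.testBit u = true ∧ p.2.1.testBit v = true := by
  decide +kernel

theorem G7_critical : Critical 7 G7 := by
  refine ⟨G7_kconn, ?_⟩
  intro x y hxy
  obtain ⟨p, hp, hx, hy⟩ := G7_cover x y hxy
  obtain ⟨h1, h2, h3, h4, h5, h6⟩ := G7_frag p hp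
  refine not_kconn_contract (T := {v : Fin 15 | p.2.1.testBit v = true})
    (A := {v : Fin 15 | p.1.testBit v = true}) hx hy ?_ (a := p.2.2.1) (b := p.2.2.2)
    h1 h2 h3 h4 (fun u hu v hv => h6 u v hu hv)
  have : {v : Fin 15 | p.2.1.testBit v = true} =
      ↑(Finset.univ.filter (fun v : Fin 15 => p.2.1.testBit v = true)) := by
    ext v; simp
  rw [this, Set.ncard_coe_finset]
  exact h5

theorem G7_num : numDeg 7 G7 = 3 := by
  unfold numDeg
  have h1 : ∀ v : Fin 15, (G7.neighborSet v).ncard =
      (Finset.univ.filter (fun w : Fin 15 => G7.Adj v w)).card := by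
    intro v
    rw [← Set.ncard_coe_finset]
    congr 1
    ext w
    simp
  have h2 : {v : Fin 15 | (G7.neighborSet v).ncard = 7} =
      ↑(Finset.univ.filter (fun v : Fin 15 =>
        (Finset.univ.filter (fun w : Fin 15 => G7.Adj v w)).card = 7)) := by
    ext v
    simp [h1 v]
  rw [h2, Set.ncard_coe_finset]
  decide +kernel

end Pool.Agent.Lib.MP_e95c01_co
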