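import Pool.Agent.Lib.MP_e95c01_co.SevenData

/-!
# A 7-contraction-critical graph on 147 vertices with 24 vertices of degree 7
-/

namespace Pool.Agent.Lib.MP_e95c01_co

/-- The neighbourhood masks as a function. -/
def a147 (i : ℕ) : ℕ := G147Masks.getD i 0

theorem a147_sym : ((List.range 147).all fun u => (List.range 147).all fun v =>
    (a147 u).testBit v == (a147 v).testBit u) = true := by
  decide +kernel

theorem a147_irr : ((List.range 147).all fun u => !((a147 u).testBit u)) = true := by
  decide +kernel

/-- The graph: `u` and `v` are adjacent if bit `v` of the mask of `u` is set. -/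
def G147 : SimpleGraph (Fin 147) :=
  maskGraph 147 a147 ⟨fun u hu v hv => by
    have h := a147_sym
    rw [List.all_eq_true] at h
    have h1 := h u (List.mem_range.mpr hu)
    rw [List.all_eq_true] at h1
    exact beq_iff_eq.mp (h1 v (List.mem_range.mpr hv)), fun u hu => by
    have h := a147_irr
    rw [List.all_eq_true] at h
    have h1 := h u (List.mem_range.mpr hu)
    rwa [Bool.not_eq_true'] at h1⟩

theorem G147_adj (u v : Fin 147) : G147.Adj u v ↔ (a147 u).testBit v = true := Iff.rfl

theorem G147_base : ((List.range 7).all fun j => (List.range j).all fun i =>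
    ((a147 i).testBit j || fanOK a147 147 7 (a147 j) i (G147Base i j))) = true := by
  decide +kernel

theorem G147_fans : ((List.range 147).all fun v => Nat.blt v 7 ||
    fanOK a147 147 7 (2 ^ v - 1) v (G147Fans.getD (v - 7) [])) = true := by
  decide +kernel

theorem G147_kconn : KConn 7 G147 := by
  refine kconn_of_fans (a := a147) (by norm_num) G147_adj G147Base
    (fun v => G147Fans.getD (v - 7) []) ?_ ?_
  · intro j hj i hi
    have h := G147_base
    rw [List.all_eq_true] at h
    have h1 := h j (List.mem_range.mpr hj)
    rw [List.all_eq_true] at h1
    exact h1 i (List.mem_range.mpr hi)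
  · intro v hv h7
    have h := G147_fans
    rw [List.all_eq_true] at h
    have h1 := h v (List.mem_range.mpr hv)
    rw [Bool.or_eq_true] at h1
    rcases h1 with h1 | h1
    · rw [Nat.blt_eq] at h1
      omega
    · exact h1

theorem G147_frags : G147Frags.all (fragOK a147 147 7) = true := by
  decide +kernel

theorem G147_cover :
    ((List.range 147).all fun u => (a147 u ||| coverMask G147Frags u) == coverMask G147Frags u) =
      true := by
  decide +kernel

theorem G147_critical : Critical 7 G147 :=
  critical_of_check G147_adj G147Frags G147_frags G147_cover G147_kconn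

theorem G147_num : numDeg 7 G147 = 24 := by
  refine numDeg_of_check G147_adj ?_
  decide +kernel

end Pool.Agent.Lib.MP_e95c01_co
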