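import Pool.Agent.Lib.MP_e95c01_co.Basic

/-!
# A family of 6-contraction-critical graphs with exactly one third of the vertices of degree 6
-/

namespace Pool.Agent.Lib.MP_e95c01_co

/-- The residue modulo 3 of an element of `ZMod (3 * m)`. -/
def res (m : ℕ) : ZMod (3 * m) →+* ZMod 3 := ZMod.castHom (Dvd.intro _ rfl) (ZMod 3)

/-- The graph on `ZMod (3 * m)`: cyclic distance at most three, and in addition `u` and `u + 4`
are adjacent for `u = 1` modulo 3. -/
def G6 (m : ℕ) : SimpleGraph (ZMod (3 * m)) where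
  Adj u v := u ≠ v ∧ ∃ d : ℤ, v = u + d ∧
    (|d| ≤ 3 ∨ (d = 4 ∧ res m u = 1) ∨ (d = -4 ∧ res m v = 1))
  symm := ⟨by
    rintro u v ⟨h, d, hd, h1⟩
    refine ⟨h.symm, -d, by rw [hd]; push_cast; ring, ?_⟩
    rcases h1 with h1 | h1 | h1
    · exact Or.inl (by rw [abs_neg]; exact h1)
    · exact Or.inr (Or.inr ⟨by rw [h1.1], h1.2⟩)
    · exact Or.inr (Or.inl ⟨by rw [h1.1]; norm_num, h1.2⟩)⟩
  loopless := ⟨fun u h => h.1 rfl⟩

variable {m : ℕ}

theorem cast_inj (hm : 3 ≤ m) {a b : ℤ} (ha : |a| ≤ 4) (hb : |b| ≤ 4)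
    (h : ((a : ℤ) : ZMod (3 * m)) = b) : a = b := by
  rw [ZMod.intCast_eq_intCast_iff] at h
  have h1 := (Int.modEq_iff_dvd.mp h)
  have h2 : |b - a| < ((3 * m : ℕ) : ℤ) := by
    have := abs_sub b a
    push_cast
    have : (3 : ℤ) ≤ m := by exact_mod_cast hm
    rw [abs_lt]
    rw [abs_le] at ha hb
    constructor <;> linarith [ha.1, ha.2, hb.1, hb.2]
  have h3 := Int.eq_zero_of_abs_lt_dvd h1 h2
  linarith

theorem step (S : Set (ZMod (3 * m))) {u : ZMod (3 * m)} {e : ℕ} (he : e ≤ 3) (hu : u ∈ Sᶜ)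
    (hv : u + (e : ZMod (3 * m)) ∈ Sᶜ) :
    ((G6 m).induce Sᶜ).Reachable ⟨u, hu⟩ ⟨u + (e : ZMod (3 * m)), hv⟩ := by
  by_cases h : u = u + (e : ZMod (3 * m))
  · have : (⟨u, hu⟩ : ↥(Sᶜ)) = ⟨u + (e : ZMod (3 * m)), hv⟩ := Subtype.ext h
    rw [← this]
  · apply SimpleGraph.Adj.reachable
    show (G6 m).Adj u (u + (e : ZMod (3 * m)))
    refine ⟨h, (e : ℤ), by push_cast; rfl, Or.inl ?_⟩
    rw [abs_of_nonneg (by positivity)]
    exact_mod_cast he

theorem arc (S : Set (ZMod (3 * m))) : ∀ (d : ℕ) (u : ZMod (3 * m)) (hu : u ∈ Sᶜ)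
    (hv : u + (d : ZMod (3 * m)) ∈ Sᶜ),
    (∀ t : ℕ, 0 < t → t + 2 < d → ∃ j : ℕ, j < 3 ∧ u + ((t + j : ℕ) : ZMod (3 * m)) ∈ Sᶜ) →
    ((G6 m).induce Sᶜ).Reachable ⟨u, hu⟩ ⟨u + (d : ZMod (3 * m)), hv⟩ := by
  intro d
  induction d using Nat.strong_induction_on with
  | _ d ih =>
    intro u hu hv H
    by_cases hd : d ≤ 3
    · exact step S hd hu hv
    · obtain ⟨j, hj, hjS⟩ := H 1 one_pos (by omega)
      have h1 : ((1 + j : ℕ)) ≤ 3 := by omega
      have h2 := step S h1 hu hjS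
      have e1 : (u + ((1 + j : ℕ) : ZMod (3 * m))) + ((d - (1 + j) : ℕ) : ZMod (3 * m))
          = u + (d : ZMod (3 * m)) := by
        rw [add_assoc, ← Nat.cast_add, Nat.add_sub_cancel' (by omega)]
      have h3 := ih (d - (1 + j)) (by omega) (u + ((1 + j : ℕ) : ZMod (3 * m))) hjS
        (by rw [e1]; exact hv) (by
          intro t ht htd
          obtain ⟨i, hi, hiS⟩ := H (1 + j + t) (by omega) (by omega)
          refine ⟨i, hi, ?_⟩
          rw [add_assoc, ← Nat.cast_add, ← add_assoc (1 + j) t i]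
          exact hiS)
      have e2 : (⟨(u + ((1 + j : ℕ) : ZMod (3 * m))) + ((d - (1 + j) : ℕ) : ZMod (3 * m)),
          by rw [e1]; exact hv⟩ : ↥(Sᶜ)) = ⟨u + (d : ZMod (3 * m)), hv⟩ := Subtype.ext e1
      rw [e2] at h3
      exact h2.trans h3

theorem kconn6 (hm : 3 ≤ m) : KConn 6 (G6 m) := by
  have hn : NeZero (3 * m) := ⟨by omega⟩
  have hcard : Nat.card (ZMod (3 * m)) = 3 * m := Nat.card_zmod _
  refine ⟨by rw [hcard]; omega, ?_⟩
  intro S hS
  have hfin : S.Finite := Set.toFinite S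
  have hinj : Set.InjOn (fun j : ℕ => (j : ZMod (3 * m))) {j : ℕ | j < 3 * m} := by
    intro a ha b hb hab
    have : (a : ZMod (3 * m)) = b := hab
    rw [ZMod.natCast_eq_natCast_iff'] at this
    rwa [Nat.mod_eq_of_lt ha, Nat.mod_eq_of_lt hb] at this
  rw [SimpleGraph.connected_iff]
  constructor
  · rintro ⟨u, hu⟩ ⟨v, hv⟩
    let d : ℕ := (v - u).val
    have hd : d < 3 * m := ZMod.val_lt _
    have hvd : v = u + (d : ZMod (3 * m)) := by
      rw [ZMod.natCast_zmod_val]; ring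
    by_cases H1 : ∀ t : ℕ, 0 < t → t + 2 < d →
        ∃ j : ℕ, j < 3 ∧ u + ((t + j : ℕ) : ZMod (3 * m)) ∈ Sᶜ
    · have := arc S d u hu (by rw [← hvd]; exact hv) H1
      have e : (⟨u + (d : ZMod (3 * m)), by rw [← hvd]; exact hv⟩ : ↥(Sᶜ)) = ⟨v, hv⟩ :=
        Subtype.ext hvd.symm
      rwa [e] at this
    · by_cases H2 : ∀ t : ℕ, 0 < t → t + 2 < 3 * m - d →
          ∃ j : ℕ, j < 3 ∧ v + ((t + j : ℕ) : ZMod (3 * m)) ∈ Sᶜ
      · have e1 : v + ((3 * m - d : ℕ) : ZMod (3 * m)) = u := by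
          rw [hvd, add_assoc, ← Nat.cast_add, Nat.add_sub_cancel' hd.le, ZMod.natCast_self,
            add_zero]
        have := arc S (3 * m - d) v hv (by rw [e1]; exact hu) H2
        have e : (⟨v + ((3 * m - d : ℕ) : ZMod (3 * m)), by rw [e1]; exact hu⟩ : ↥(Sᶜ)) =
          ⟨u, hu⟩ := Subtype.ext e1
        rw [e] at this
        exact this.symm
      · exfalso
        push Not at H1 H2
        obtain ⟨t, ht, htd, H1⟩ := H1
        obtain ⟨t', ht', htd', H2⟩ := H2
        have hsub : ((fun j : ℕ => u + (j : ZMod (3 * m))) '' ↑(Finset.Ico t (t + 3) ∪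
            Finset.Ico (d + t') (d + t' + 3))) ⊆ S := by
          rintro _ ⟨j, hj, rfl⟩
          simp only [Finset.coe_union, Finset.coe_Ico, Set.mem_union, Set.mem_Ico] at hj
          rcases hj with hj | hj
          · have := H1 (j - t) (by omega)
            rw [Nat.add_sub_cancel' hj.1] at this
            simpa using this
          · have := H2 (j - (d + t')) (by omega)
            rw [hvd, add_assoc, ← Nat.cast_add, ← add_assoc, Nat.add_sub_cancel' hj.1] at this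
            simpa using this
        have hinj2 : Set.InjOn (fun j : ℕ => u + (j : ZMod (3 * m))) ↑(Finset.Ico t (t + 3) ∪
            Finset.Ico (d + t') (d + t' + 3)) := by
          intro a ha b hb hab
          simp only [Finset.coe_union, Finset.coe_Ico, Set.mem_union, Set.mem_Ico] at ha hb
          apply hinj
          · show a < 3 * m
            omega
          · show b < 3 * m
            omega
          · exact add_left_cancel hab
        have h1 := Set.ncard_le_ncard hsub hfin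
        rw [Set.InjOn.ncard_image hinj2, Set.ncard_coe_finset, Finset.card_union_of_disjoint,
          Nat.card_Ico, Nat.card_Ico] at h1
        · omega
        · rw [Finset.disjoint_left]
          intro a ha hb
          rw [Finset.mem_Ico] at ha hb
          omega
  · have : (Sᶜ).Nonempty := by
      rw [Set.nonempty_compl]
      rintro rfl
      rw [Set.ncard_univ, hcard] at hS
      omega
    exact this.to_subtype

/-- The offsets of the neighbours of a vertex with residue `r`. -/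
def F (r : ZMod 3) : Finset ℤ :=
  if r = 0 then {-3, -2, -1, 1, 2, 3}
  else if r = 1 then {-3, -2, -1, 1, 2, 3, 4} else {-4, -3, -2, -1, 1, 2, 3}

theorem F_abs : ∀ (r : ZMod 3), ∀ d ∈ F r, |d| ≤ 4 := by decide

theorem F_ne : ∀ (r : ZMod 3), ∀ d ∈ F r, d ≠ 0 := by decide

theorem F_sub (r : ZMod 3) {d : ℤ} (h : |d| ≤ 3) (h0 : d ≠ 0) : d ∈ F r := by
  rw [abs_le] at h
  obtain ⟨h1, h2⟩ := h
  have : ∀ r : ZMod 3, ∀ d ∈ Finset.Icc (-3 : ℤ) 3, d ≠ 0 → d ∈ F r := by decide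
  exact this r d (Finset.mem_Icc.mpr ⟨h1, h2⟩) h0

theorem F_cases : ∀ (r : ZMod 3), ∀ d ∈ F r, |d| ≤ 3 ∨ (d = 4 ∧ r = 1) ∨ (d = -4 ∧ r = 2) := by
  decide

theorem adj_iff (hm : 3 ≤ m) (u v : ZMod (3 * m)) :
    (G6 m).Adj u v ↔ ∃ d ∈ F (res m u), v = u + (d : ZMod (3 * m)) := by
  constructor
  · rintro ⟨hne, d, rfl, h⟩
    rcases h with h | h | h
    · refine ⟨d, F_sub _ h ?_, rfl⟩
      rintro rfl
      simp at hne
    · refine ⟨d, ?_, rfl⟩
      rw [h.1, h.2]; decide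
    · refine ⟨d, ?_, rfl⟩
      have h2 : res m u = 2 := by
        have := h.2
        rw [map_add, map_intCast, h.1] at this
        have e : ((-4 : ℤ) : ZMod 3) = -1 := by decide
        rw [e] at this
        have : res m u = 1 + 1 := by linear_combination this
        rw [this]; decide
      rw [h.1, h2]; decide
  · rintro ⟨d, hd, rfl⟩
    refine ⟨?_, d, rfl, ?_⟩
    · intro h
      have h1 : ((d : ℤ) : ZMod (3 * m)) = ((0 : ℤ) : ZMod (3 * m)) := by
        push_cast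
        exact left_eq_add.mp h
      exact F_ne _ d hd (cast_inj hm (F_abs _ d hd) (by norm_num) h1)
    · rcases F_cases _ d hd with h | h | h
      · exact Or.inl h
      · exact Or.inr (Or.inl h)
      · refine Or.inr (Or.inr ⟨h.1, ?_⟩)
        rw [map_add, map_intCast, h.1, h.2]
        decide

theorem nbr (hm : 3 ≤ m) (u : ZMod (3 * m)) :
    (G6 m).neighborSet u = (fun d : ℤ => u + (d : ZMod (3 * m))) '' ↑(F (res m u)) := by
  ext v
  rw [SimpleGraph.mem_neighborSet, adj_iff hm]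
  constructor
  · rintro ⟨d, hd, rfl⟩
    exact ⟨d, hd, rfl⟩
  · rintro ⟨d, hd, rfl⟩
    exact ⟨d, hd, rfl⟩

theorem nbr_card (hm : 3 ≤ m) (u : ZMod (3 * m)) :
    ((G6 m).neighborSet u).ncard = (F (res m u)).card := by
  rw [nbr hm, Set.InjOn.ncard_image, Set.ncard_coe_finset]
  intro a ha b hb hab
  exact cast_inj hm (F_abs _ a ha) (F_abs _ b hb) (add_left_cancel hab)

theorem F_card : ∀ r : ZMod 3, (F r).card = 6 ↔ r = 0 := by decide

theorem numDeg6 (hm : 3 ≤ m) : numDeg 6 (G6 m) = m := by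
  have hn : NeZero (3 * m) := ⟨by omega⟩
  unfold numDeg
  have h1 : {v : ZMod (3 * m) | ((G6 m).neighborSet v).ncard = 6} =
      (fun q : ℕ => ((3 * q : ℕ) : ZMod (3 * m))) '' ↑(Finset.range m) := by
    ext v
    rw [Set.mem_ofPred_eq, nbr_card hm, F_card]
    have h2 : res m v = ((v.val : ℕ) : ZMod 3) := by
      rw [ZMod.natCast_val]; rfl
    rw [h2, ZMod.natCast_eq_zero_iff]
    constructor
    · rintro ⟨q, hq⟩
      refine ⟨q, ?_, ?_⟩
      · have := ZMod.val_lt v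
        rw [Finset.mem_coe, Finset.mem_range]
        omega
      · show ((3 * q : ℕ) : ZMod (3 * m)) = v
        rw [← hq, ZMod.natCast_zmod_val]
    · rintro ⟨q, hq, rfl⟩
      rw [Finset.mem_coe, Finset.mem_range] at hq
      show 3 ∣ (((3 * q : ℕ) : ZMod (3 * m))).val
      rw [ZMod.val_natCast, Nat.mod_eq_of_lt (by omega)]
      exact Dvd.intro _ rfl
  rw [h1, Set.InjOn.ncard_image, Set.ncard_coe_finset, Finset.card_range]
  intro a ha b hb hab
  rw [Finset.mem_coe, Finset.mem_range] at ha hb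
  have h3 : (((3 * a : ℕ) : ZMod (3 * m))) = ((3 * b : ℕ) : ZMod (3 * m)) := hab
  rw [ZMod.natCast_eq_natCast_iff', Nat.mod_eq_of_lt (by omega), Nat.mod_eq_of_lt (by omega)] at h3
  omega

theorem notMem_image (hm : 3 ≤ m) (x : ZMod (3 * m)) (P : Finset ℤ) (hP : ∀ d ∈ P, |d| ≤ 4)
    {e : ℤ} (he : |e| ≤ 4) (h : e ∉ P) :
    x + (e : ZMod (3 * m)) ∉ (fun d : ℤ => x + (d : ZMod (3 * m))) '' (P : Set ℤ) := by
  rintro ⟨d, hd, h1⟩
  exact h (by rw [← cast_inj hm (hP d hd) he (add_left_cancel h1)]; exact hd)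

theorem cut0 (hm : 3 ≤ m) {x : ZMod (3 * m)} (hx : res m x = 0) {d e : ℤ}
    (hd : d ∈ F 0) (he : e ∈ F 0) :
    ¬ KConn 6 (contract (G6 m) (x + (d : ZMod (3 * m))) (x + (e : ZMod (3 * m)))) := by
  have hn : NeZero (3 * m) := ⟨by omega⟩
  have hP : ∀ d ∈ F 0, |d| ≤ 4 := F_abs 0
  apply not_kconn_contract (T := (fun d : ℤ => x + (d : ZMod (3 * m))) '' ↑(F 0))
    (A := {x}) (a := x) (b := x + ((4 : ℤ) : ZMod (3 * m))) ⟨d, hd, rfl⟩ ⟨e, he, rfl⟩
  · refine le_trans (Set.ncard_image_le (Finset.finite_toSet _)) ?_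
    rw [Set.ncard_coe_finset]
    decide
  · rfl
  · have := notMem_image hm x (F 0) hP (e := 0) (by norm_num) (by decide)
    simpa using this
  · intro h
    have h1 : x + ((4 : ℤ) : ZMod (3 * m)) = x + ((0 : ℤ) : ZMod (3 * m)) := by
      rw [Set.mem_singleton_iff.mp h]; simp
    exact absurd (cast_inj hm (by norm_num) (by norm_num) (add_left_cancel h1)) (by norm_num)
  · exact notMem_image hm x (F 0) hP (by norm_num) (by decide)
  · intro u hu v hv
    rw [Set.mem_singleton_iff] at hu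
    subst hu
    right
    rw [adj_iff hm, hx] at hv
    obtain ⟨d, hd, rfl⟩ := hv
    exact ⟨d, hd, rfl⟩

/-- The offsets of the six neighbours of the pair `{y, y + 1}` for `y = 1` modulo 3. -/
def F1 : Finset ℤ := {-3, -2, -1, 2, 3, 4}

theorem cut1 (hm : 3 ≤ m) {x : ZMod (3 * m)} (hx : res m x = 1) {d e : ℤ}
    (hd : d ∈ F1) (he : e ∈ F1) :
    ¬ KConn 6 (contract (G6 m) (x + (d : ZMod (3 * m))) (x + (e : ZMod (3 * m)))) := by
  have hn : NeZero (3 * m) := ⟨by omega⟩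
  have hP : ∀ d ∈ F1, |d| ≤ 4 := by decide
  apply not_kconn_contract (T := (fun d : ℤ => x + (d : ZMod (3 * m))) '' ↑F1)
    (A := (fun d : ℤ => x + (d : ZMod (3 * m))) '' ↑({0, 1} : Finset ℤ))
    (a := x + ((0 : ℤ) : ZMod (3 * m))) (b := x + ((-4 : ℤ) : ZMod (3 * m)))
    ⟨d, hd, rfl⟩ ⟨e, he, rfl⟩
  · refine le_trans (Set.ncard_image_le (Finset.finite_toSet _)) ?_
    rw [Set.ncard_coe_finset]
    decide
  · exact ⟨0, by simp, rfl⟩
  · exact notMem_image hm x F1 hP (e := 0) (by norm_num) (by decide)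
  · exact notMem_image hm x {0, 1} (by decide) (by norm_num) (by decide)
  · exact notMem_image hm x F1 hP (by norm_num) (by decide)
  · rintro _ ⟨c, hc, rfl⟩ v hv
    rw [adj_iff hm] at hv
    obtain ⟨f, hf, rfl⟩ := hv
    have hc' : c ∈ ({0, 1} : Finset ℤ) := hc
    have key : ∀ c ∈ ({0, 1} : Finset ℤ), ∀ f ∈ F (1 + (c : ZMod 3)),
        (c + f) ∈ ({0, 1} : Finset ℤ) ∨ (c + f) ∈ F1 := by decide
    have hf' : f ∈ F (1 + (c : ZMod 3)) := by
      have : res m (x + (c : ZMod (3 * m))) = 1 + (c : ZMod 3) := by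
        rw [map_add, map_intCast, hx]
      rw [← this]; exact hf
    have e1 : x + (c : ZMod (3 * m)) + (f : ZMod (3 * m)) =
        x + ((c + f : ℤ) : ZMod (3 * m)) := by push_cast; ring
    rw [e1]
    rcases key c hc' f hf' with h | h
    · exact Or.inl ⟨c + f, h, rfl⟩
    · exact Or.inr ⟨c + f, h, rfl⟩

theorem not_contractible_pos (u : ZMod (3 * m)) {d : ℤ} (hd : d ∈ F (res m u))
    (hpos : 0 < d) (P : ZMod (3 * m) → ZMod (3 * m) → Prop)
    (h0 : ∀ x, res m x = 0 → ∀ d ∈ F 0, ∀ e ∈ F 0,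
      P (x + (d : ZMod (3 * m))) (x + (e : ZMod (3 * m))))
    (h1 : ∀ x, res m x = 1 → ∀ d ∈ F1, ∀ e ∈ F1,
      P (x + (d : ZMod (3 * m))) (x + (e : ZMod (3 * m)))) :
    P u (u + (d : ZMod (3 * m))) := by
  have key : ∀ r : ZMod 3, ∀ d ∈ F r, 0 < d → ∃ c ∈ Finset.Icc (-3 : ℤ) 3,
      (r + (c : ZMod 3) = 0 ∧ -c ∈ F 0 ∧ d - c ∈ F 0) ∨
      (r + (c : ZMod 3) = 1 ∧ -c ∈ F1 ∧ d - c ∈ F1) := by decide
  obtain ⟨c, -, h | h⟩ := key _ d hd hpos
  · have := h0 (u + (c : ZMod (3 * m))) (by rw [map_add, map_intCast]; exact h.1) _ h.2.1 _ h.2.2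
    push_cast at this
    rwa [show u + (c : ZMod (3 * m)) + -(c : ZMod (3 * m)) = u by ring,
      show u + (c : ZMod (3 * m)) + ((d : ZMod (3 * m)) - (c : ZMod (3 * m))) =
        u + (d : ZMod (3 * m)) by ring] at this
  · have := h1 (u + (c : ZMod (3 * m))) (by rw [map_add, map_intCast]; exact h.1) _ h.2.1 _ h.2.2
    push_cast at this
    rwa [show u + (c : ZMod (3 * m)) + -(c : ZMod (3 * m)) = u by ring,
      show u + (c : ZMod (3 * m)) + ((d : ZMod (3 * m)) - (c : ZMod (3 * m))) =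
        u + (d : ZMod (3 * m)) by ring] at this

theorem critical6 (hm : 3 ≤ m) : Critical 6 (G6 m) := by
  refine ⟨kconn6 hm, ?_⟩
  intro x y hxy
  have h2 := hxy
  rw [adj_iff hm] at h2
  obtain ⟨d, hd, rfl⟩ := h2
  rcases lt_trichotomy d 0 with hneg | h0 | hpos
  · -- use the edge from the other end
    have h3 := hxy.symm
    rw [adj_iff hm] at h3
    obtain ⟨e, he, h4⟩ := h3
    have hed : e = -d := by
      have h5 : ((d + e : ℤ) : ZMod (3 * m)) = 0 := by
        have h6 : x = x + ((d + e : ℤ) : ZMod (3 * m)) := by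
          push_cast
          rw [← add_assoc]
          exact h4
        exact left_eq_add.mp h6
      have h7 : ((e : ℤ) : ZMod (3 * m)) = ((-d : ℤ) : ZMod (3 * m)) := by
        push_cast at h5 ⊢
        exact eq_neg_of_add_eq_zero_right h5
      exact cast_inj hm (F_abs _ e he) (by rw [abs_neg]; exact F_abs _ d hd) h7
    have h8 := not_contractible_pos (x + (d : ZMod (3 * m))) he (by omega)
      (fun u v => ¬ KConn 6 (contract (G6 m) v u))
      (fun x hx d hd e he => cut0 hm hx he hd) (fun x hx d hd e he => cut1 hm hx he hd)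
    rw [← h4] at h8
    exact h8
  · exact absurd h0 (F_ne _ d hd)
  · exact not_contractible_pos x hd hpos
      (fun u v => ¬ KConn 6 (contract (G6 m) u v))
      (fun x hx d hd e he => cut0 hm hx hd he) (fun x hx d hd e he => cut1 hm hx hd he)

theorem cc6 : cc 6 ≤ 1 / 3 := by
  have hm : (3 : ℕ) ≤ 3 := le_refl _
  have hn : NeZero (3 * 3) := ⟨by omega⟩
  refine cc_le (critical6 hm) ?_
  rw [numDeg6 hm, Nat.card_zmod]
  norm_num

end Pool.Agent.Lib.MP_e95c01_co
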